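import Mathlib
import Pool.Agent.Helper87.ILN.Defs

/-!
Algebraic preliminaries for the topological part.
-/

set_option autoImplicit false

open scoped commutatorElement

namespace Pool.Agent.Helper37.ILN

open Pool.Agent.Helper87.ILN

/-- Isolated subgroups. -/
def Isolated {G : Type*} [Group G] (H : Subgroup G) : Prop :=
  ∀ g : G, ∀ n : ℕ, 0 < n → g ^ n ∈ H → g ∈ H

section PS

variable {G : Type*} [Group G]

lemma ps_of_mul (h : PSProp G) {p : ℤ → G} (hp : p ∈ PSeq G) {m : ℕ} (hm : 0 < m)
    (H : ∀ t : ℤ, p (m * t) = 1) (s : ℤ) : p s = 1 := by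
  apply h p hp
  apply Set.infinite_of_injective_forall_mem (f := fun t : ℤ => (m : ℤ) * t)
  · intro a b hab
    have : (m : ℤ) ≠ 0 := by exact_mod_cast hm.ne'
    exact mul_left_cancel₀ this hab
  · intro t; exact H t

/-- the sequence of commutators of `x` and `p s x (p s)⁻¹` -/
lemma pseq_comm {p q : ℤ → G} (hp : p ∈ PSeq G) (hq : q ∈ PSeq G) :
    (fun s => p s * q s * (p s)⁻¹ * (q s)⁻¹) ∈ PSeq G :=
  PSeq.mul (PSeq.mul (PSeq.mul hp hq) (PSeq.inv hp)) (PSeq.inv hq)

lemma comm_eq_one_iff (a b : G) : a * b * a⁻¹ * b⁻¹ = 1 ↔ Commute a b := by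
  rw [← commutatorElement_def, commutatorElement_eq_one_iff_commute]

lemma commute_of_pow (h : PSProp G) {x y : G} {n : ℕ} (hn : 0 < n)
    (hc : Commute (x ^ n) y) : Commute x y := by
  have h1 := ps_of_mul h (pseq_comm (PSeq.zpow x) (PSeq.const y)) hn (fun t => ?_) 1
  · rw [zpow_one] at h1
    exact (comm_eq_one_iff _ _).mp h1
  · rw [comm_eq_one_iff, zpow_mul, zpow_natCast]
    exact hc.zpow_left t

lemma torsionFree_of_injective {H : Type*} [Group H] (f : H →* G) (hf : Function.Injective f)
    (h : TorsionFree G) : TorsionFree H := by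
  intro g n hn hg
  apply hf
  rw [map_one]
  apply h _ n hn
  rw [← map_pow, hg, map_one]

lemma locNilp_of_injective {H : Type*} [Group H] (f : H →* G) (hf : Function.Injective f)
    (h : LocNilp G) : LocNilp H := by
  classical
  intro s
  have h1 := h (s.image f)
  have h2 : Subgroup.map f (Subgroup.closure (s : Set H)) =
      Subgroup.closure ((s.image f : Finset G) : Set G) := by
    rw [MonoidHom.map_closure, Finset.coe_image]
  have h3 : Group.IsNilpotent (Subgroup.map f (Subgroup.closure (s : Set H))) := by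
    rw [h2]; exact h1
  exact Group.nilpotent_of_mulEquiv ((Subgroup.closure (s : Set H)).equivMapOfInjective f hf).symm

lemma locNilp_of_surjective {H : Type*} [Group H] (f : G →* H) (hf : Function.Surjective f)
    (h : LocNilp G) : LocNilp H := by
  classical
  intro s
  choose g hg using hf
  have h1 := h (s.image g)
  have h2 : Subgroup.map f (Subgroup.closure ((s.image g : Finset G) : Set G)) =
      Subgroup.closure (s : Set H) := by
    rw [MonoidHom.map_closure, Finset.coe_image, ← Set.image_comp]
    congr 1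
    ext y
    simp [hg]
  rw [← h2]
  let K := Subgroup.closure ((s.image g : Finset G) : Set G)
  have : Group.IsNilpotent K := h1
  exact Group.nilpotent_of_surjective (f.subgroupMap K) (f.subgroupMap_surjective K)

/-- The centraliser of any set is isolated. -/
lemma isolated_centralizer (h : PSProp G) (S : Set G) : Isolated (Subgroup.centralizer S) := by
  intro g n hn hg
  rw [Subgroup.mem_centralizer_iff] at hg ⊢
  intro y hy
  have h1 : Commute (g ^ n) y := (hg y hy).symm
  exact (commute_of_pow h hn h1).symm.eq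

lemma centralizer_normal_of_conj (S : Set G) (hS : ∀ g : G, ∀ s ∈ S, g * s * g⁻¹ ∈ S) :
    (Subgroup.centralizer S).Normal := by
  constructor
  intro n hn g
  rw [Subgroup.mem_centralizer_iff] at hn ⊢
  intro y hy
  have h1 := hn (g⁻¹ * y * g) (by simpa using hS g⁻¹ y hy)
  calc y * (g * n * g⁻¹) = g * ((g⁻¹ * y * g) * n) * g⁻¹ := by group
    _ = g * (n * (g⁻¹ * y * g)) * g⁻¹ := by rw [h1]
    _ = g * n * g⁻¹ * y := by group

end PS

end Pool.Agent.Helper37.ILN
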