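import Mathlib
import Pool.Agent.Helper37.ILN.Alg

/-!
Groups with a bornology without bounded elements (helper51's argument).
-/

set_option autoImplicit false

open scoped commutatorElement Pointwise

namespace Pool.Agent.Helper37.ILN

open Pool.Agent.Helper87.ILN Subgroup

/-- A family of bounded sets compatible with the group structure. -/
structure Born {Q : Type*} [Group Q] (Bd : Set Q → Prop) : Prop where
  mono : ∀ {S T : Set Q}, S ⊆ T → Bd T → Bd S
  mul : ∀ {S T : Set Q}, Bd S → Bd T → Bd (S * T)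
  inv : ∀ {S : Set Q}, Bd S → Bd S⁻¹
  sing : ∀ x : Q, Bd {x}

section

variable {Q : Type*} [Group Q] {Bd : Set Q → Prop}

/-- iterated commutators with `h` -/
def zz (z h : Q) : ℕ → Q
  | 0 => z
  | j + 1 => ⁅(zz z h j)⁻¹, h⁆

lemma zz_mem (z h : Q) (D : Subgroup Q) (hz : z ∈ D) (hh : h ∈ D) (j : ℕ) :
    zz z h j ∈ Subgroup.lowerCentralSeries D j := by
  induction j with
  | zero => exact hz
  | succ j ih =>
    rw [Subgroup.lowerCentralSeries_succ]
    exact Subgroup.commutator_mem_commutator (inv_mem ih) hh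

lemma zz_orbit (z h : Q) (j : ℕ) (n : ℤ) :
    h ^ n * zz z h (j + 1) * (h ^ n)⁻¹ =
      (h ^ n * zz z h j * (h ^ n)⁻¹)⁻¹ * (h ^ (n + 1) * zz z h j * (h ^ (n + 1))⁻¹) := by
  simp only [zz, commutatorElement_def, zpow_add, zpow_one]
  group

lemma zz_bdd (hB : Born Bd) (z h : Q) (hz : Bd {x | ∃ n : ℤ, x = h ^ n * z * (h ^ n)⁻¹}) (j : ℕ) :
    Bd {x | ∃ n : ℤ, x = h ^ n * zz z h j * (h ^ n)⁻¹} := by
  induction j with
  | zero => exact hz
  | succ j ih =>
    apply hB.mono _ (hB.mul (hB.inv ih) ih)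
    rintro x ⟨n, rfl⟩
    rw [zz_orbit]
    apply Set.mul_mem_mul
    · rw [Set.mem_inv, inv_inv]
      exact ⟨n, rfl⟩
    · exact ⟨n + 1, rfl⟩

lemma lemmaA (hB : Born Bd) (hL : LocNilp Q)
    (hno : ∀ h : Q, Bd {x | ∃ n : ℤ, x = h ^ n} → h = 1) (z h : Q)
    (hz : Bd {x | ∃ n : ℤ, x = h ^ n * z * (h ^ n)⁻¹}) : Commute z h := by
  classical
  have hD := hL {z, h}
  set D := Subgroup.closure (({z, h} : Finset Q) : Set Q) with hDdef
  have hzD : z ∈ D := Subgroup.subset_closure (by simp)
  have hhD : h ∈ D := Subgroup.subset_closure (by simp)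
  obtain ⟨n, hn⟩ := (Subgroup.isNilpotent_iff_lowerCentralSeries D).mp hD
  have hex : ∃ j, zz z h j = 1 := by
    refine ⟨n, ?_⟩
    have := zz_mem z h D hzD hhD n
    rw [hn, mem_bot] at this
    exact this
  have hk := Nat.find_spec hex
  have hmin := fun m (hm : m < Nat.find hex) => Nat.find_min hex hm
  generalize Nat.find hex = k at hk hmin
  match k, hk, hmin with
  | 0, hk, _ =>
    have : z = 1 := hk
    rw [this]; exact Commute.one_left h
  | 1, hk, _ =>
    have h1 : ⁅z⁻¹, h⁆ = 1 := hk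
    rw [commutatorElement_eq_one_iff_commute] at h1
    exact (Commute.inv_left_iff).mp h1
  | m + 2, hk, hmin =>
    exfalso
    apply hmin (m + 1) (by omega)
    apply hno
    have hc : Commute (zz z h (m + 1)) h := by
      have h1 : ⁅(zz z h (m + 1))⁻¹, h⁆ = 1 := hk
      rw [commutatorElement_eq_one_iff_commute] at h1
      exact (Commute.inv_left_iff).mp h1
    have hrel : h * zz z h m * h⁻¹ = zz z h m * zz z h (m + 1) := by
      simp only [zz, commutatorElement_def]
      group
    set y := zz z h m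
    set w := zz z h (m + 1)
    have hnat : ∀ n : ℕ, h ^ n * y * (h ^ n)⁻¹ = y * w ^ n := by
      intro n
      induction n with
      | zero => simp
      | succ n ih =>
        calc h ^ (n + 1) * y * (h ^ (n + 1))⁻¹
            = h * (h ^ n * y * (h ^ n)⁻¹) * h⁻¹ := by rw [pow_succ']; group
          _ = h * (y * w ^ n) * h⁻¹ := by rw [ih]
          _ = (h * y * h⁻¹) * (h * w ^ n * h⁻¹) := by group
          _ = (y * w) * w ^ n := by
              rw [hrel, ((hc.pow_left n).symm).eq]; group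
          _ = y * w ^ (n + 1) := by rw [pow_succ']; group
    have hint : ∀ n : ℤ, h ^ n * y * (h ^ n)⁻¹ = y * w ^ n := by
      intro n
      rcases Int.eq_nat_or_neg n with ⟨k, rfl | rfl⟩
      · exact_mod_cast hnat k
      · have h1 := hnat k
        have h2 : Commute (w ^ k) (h ^ k) := (hc.pow_left k).pow_right k
        rw [zpow_neg, zpow_neg, zpow_natCast, zpow_natCast, inv_inv]
        -- y w^{-k} = h^{-k} y h^k
        have h3 : y = (h ^ k)⁻¹ * (y * w ^ k) * h ^ k := by rw [← h1]; group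
        calc (h ^ k)⁻¹ * y * h ^ k = ((h ^ k)⁻¹ * (y * w ^ k) * h ^ k) * ((h ^ k)⁻¹ * (w ^ k)⁻¹ * h ^ k) := by
              group
          _ = y * ((h ^ k)⁻¹ * (w ^ k)⁻¹ * h ^ k) := by rw [← h3]
          _ = y * (w ^ k)⁻¹ := by
              have : (h ^ k)⁻¹ * (w ^ k)⁻¹ * h ^ k = (w ^ k)⁻¹ := by
                rw [mul_assoc, (h2.inv_left).eq]; group
              rw [this]
    apply hB.mono _ (hB.mul (hB.sing y⁻¹) (zz_bdd hB z h hz m))
    rintro x ⟨n, rfl⟩
    refine Set.mem_mul.mpr ⟨y⁻¹, rfl, h ^ n * y * (h ^ n)⁻¹, ⟨n, rfl⟩, ?_⟩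
    rw [hint n]; group

end

/-- helper51's argument: a group `V N₀` with `V` bounded, `N₀` nilpotent and without nontrivial
bounded elements is nilpotent. -/
theorem lemmaN (c : ℕ) : ∀ (Q : Type) [Group Q] (Bd : Set Q → Prop), Born Bd → LocNilp Q →
    (∀ h : Q, Bd {x | ∃ n : ℤ, x = h ^ n} → h = 1) → ∀ (N₀ : Subgroup Q),
    Subgroup.lowerCentralSeries N₀ c = ⊥ → ∀ V : Set Q, Bd V →
    (∀ q : Q, ∃ v ∈ V, ∃ n ∈ N₀, q = v * n) → Group.IsNilpotent Q := by
  induction c with
  | zero =>
    intro Q _ Bd hB hL hno N₀ hN V hV hQ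
    rw [Subgroup.lowerCentralSeries_zero] at hN
    have hall : ∀ q : Q, q ∈ V := by
      intro q
      obtain ⟨v, hv, n, hn, rfl⟩ := hQ q
      rw [hN, mem_bot] at hn
      rw [hn, mul_one]; exact hv
    have hone : ∀ h : Q, h = 1 := fun h => hno h (hB.mono (fun x _ => hall x) hV)
    have : Subsingleton Q := ⟨fun a b => by rw [hone a, hone b]⟩
    infer_instance
  | succ c ih =>
    intro Q _ Bd hB hL hno N₀ hN V hV hQ
    have hcen : Subgroup.lowerCentralSeries N₀ c ≤ center Q := by
      intro z hz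
      rw [mem_center_iff]
      intro h
      have hzN : ∀ ν ∈ N₀, Commute z ν := by
        intro ν hν
        have h1 := Subgroup.commutator_mem_commutator hz hν
        rw [← Subgroup.lowerCentralSeries_succ, hN, mem_bot,
          commutatorElement_eq_one_iff_commute] at h1
        exact h1
      have h2 : Commute z h := by
        apply lemmaA hB hL hno
        apply hB.mono _ (hB.mul (hB.mul hV (hB.sing z)) (hB.inv hV))
        rintro x ⟨n, rfl⟩
        obtain ⟨v, hv, ν, hν, hvν⟩ := hQ (h ^ n)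
        rw [hvν]
        refine Set.mem_mul.mpr ⟨v * z, Set.mul_mem_mul hv rfl, v⁻¹, by simpa using hv, ?_⟩
        calc v * z * v⁻¹ = v * (z * ν) * ν⁻¹ * v⁻¹ := by group
          _ = v * (ν * z) * ν⁻¹ * v⁻¹ := by rw [(hzN ν hν).eq]
          _ = v * ν * z * (v * ν)⁻¹ := by group
      exact h2.symm.eq
    let π := QuotientGroup.mk' (center Q)
    have hπ : Function.Surjective π := QuotientGroup.mk'_surjective _
    have hnil : Group.IsNilpotent (Q ⧸ center Q) := by
      apply ih (Q ⧸ center Q) (fun S' => ∃ S, Bd S ∧ S' ⊆ π '' S) ?_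
        (locNilp_of_surjective π hπ hL) ?_ (N₀.map π) ?_ (π '' V) ⟨V, hV, subset_rfl⟩ ?_
      · refine ⟨?_, ?_, ?_, ?_⟩
        · rintro S T hST ⟨U, hU, hTU⟩
          exact ⟨U, hU, hST.trans hTU⟩
        · rintro S T ⟨U, hU, hSU⟩ ⟨W, hW, hTW⟩
          refine ⟨U * W, hB.mul hU hW, ?_⟩
          rw [Set.image_mul]
          exact Set.mul_subset_mul hSU hTW
        · rintro S ⟨U, hU, hSU⟩
          refine ⟨U⁻¹, hB.inv hU, ?_⟩
          rw [Set.image_inv]
          exact Set.inv_subset_inv.mpr hSU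
        · intro x
          obtain ⟨y, rfl⟩ := hπ x
          exact ⟨{y}, hB.sing y, by simp⟩
      · rintro h' ⟨S, hS, hsub⟩
        obtain ⟨h, rfl⟩ := hπ h'
        have hcent : h ∈ center Q := by
          rw [mem_center_iff]
          intro x
          have h2 : Commute x h := by
            apply lemmaA hB hL hno
            apply hB.mono _ (hB.mul (hB.mul hS (hB.sing x)) (hB.inv hS))
            rintro _ ⟨n, rfl⟩
            have h3 : π h ^ n ∈ π '' S := hsub ⟨n, rfl⟩
            obtain ⟨s, hs, hsn⟩ := h3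
            have h4 : s⁻¹ * h ^ n ∈ center Q := by
              rw [← map_zpow] at hsn
              exact QuotientGroup.eq.mp hsn
            rw [mem_center_iff] at h4
            have h5 := h4 x
            refine Set.mem_mul.mpr ⟨s * x, Set.mul_mem_mul hs rfl, s⁻¹, by simpa using hs, ?_⟩
            calc s * x * s⁻¹ = s * (x * (s⁻¹ * h ^ n)) * (h ^ n)⁻¹ := by group
              _ = s * ((s⁻¹ * h ^ n) * x) * (h ^ n)⁻¹ := by rw [h5]
              _ = h ^ n * x * (h ^ n)⁻¹ := by group
          exact h2.eq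
        exact (QuotientGroup.eq_one_iff h).mpr hcent
      · rw [← Subgroup.map_lowerCentralSeries, Subgroup.map_eq_bot_iff]
        rw [QuotientGroup.ker_mk']
        exact hcen
      · intro q'
        obtain ⟨q, rfl⟩ := hπ q'
        obtain ⟨v, hv, n, hn, rfl⟩ := hQ q
        exact ⟨π v, ⟨v, hv, rfl⟩, π n, ⟨n, hn, rfl⟩, map_mul _ _ _⟩
    exact Subgroup.isNilpotent_of_ker_le_center π (by rw [QuotientGroup.ker_mk'])

end Pool.Agent.Helper37.ILN
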