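import Mathlib
import Pool.Agent.Helper37.ILN.Alg

/-!
The discrete case: a nonabelian torsion-free locally nilpotent group has a proper isolated
normal subgroup.
-/

set_option autoImplicit false

open scoped commutatorElement

namespace Pool.Agent.Helper37.ILN

open Pool.Agent.Helper87.ILN Subgroup

/-- The first black box. -/
def PSBox : Prop := ∀ (G : Type) [Group G], LocNilp G → TorsionFree G → PSProp G

lemma torsionFree_quotient {G : Type*} [Group G] (N : Subgroup G) [N.Normal] (h : Isolated N) :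
    TorsionFree (G ⧸ N) := by
  intro g n hn hg
  obtain ⟨x, rfl⟩ := QuotientGroup.mk_surjective g
  rw [← QuotientGroup.mk_pow, QuotientGroup.eq_one_iff] at hg
  rw [QuotientGroup.eq_one_iff]
  exact h x n hn hg

/-- Terms of the upper central series are isolated. -/
lemma isolated_ucs (hPS : PSBox) (G : Type) [Group G] (hL : LocNilp G) (hT : TorsionFree G)
    (j : ℕ) : Isolated (Subgroup.upperCentralSeries G j) := by
  induction j with
  | zero =>
    intro g n hn hg
    rw [Subgroup.upperCentralSeries_zero, mem_bot] at hg ⊢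
    exact hT g n hn hg
  | succ j ih =>
    intro g n hn hg
    rw [Subgroup.mem_upperCentralSeries_succ_iff] at hg ⊢
    intro y
    have hQ := hPS (G ⧸ Subgroup.upperCentralSeries G j)
      (locNilp_of_surjective (QuotientGroup.mk' _) (QuotientGroup.mk'_surjective _) hL)
      (torsionFree_quotient _ ih)
    have h1 : Commute ((QuotientGroup.mk' (Subgroup.upperCentralSeries G j) g) ^ n)
        (QuotientGroup.mk' (Subgroup.upperCentralSeries G j) y) := by
      rw [← map_pow, ← commutatorElement_eq_one_iff_commute, ← map_commutatorElement]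
      rw [QuotientGroup.mk'_apply, QuotientGroup.eq_one_iff]
      exact hg y
    have h2 := commute_of_pow hQ hn h1
    rw [← commutatorElement_eq_one_iff_commute, ← map_commutatorElement,
      QuotientGroup.mk'_apply, QuotientGroup.eq_one_iff] at h2
    exact h2

variable {G : Type} [Group G]

/-- `N` is a subgroup of `D`, normal and isolated in `D`. -/
structure RelNI (D N : Subgroup G) : Prop where
  le : N ≤ D
  conj : ∀ g ∈ D, ∀ n ∈ N, g * n * g⁻¹ ∈ N
  isol : ∀ g ∈ D, ∀ k : ℕ, 0 < k → g ^ k ∈ N → g ∈ N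

/-- the smallest normal isolated subgroup of `D` containing `c` -/
def JJ (D : Subgroup G) (c : G) : Subgroup G := sInf {N | RelNI D N ∧ c ∈ N}

lemma relNI_self (D : Subgroup G) : RelNI D D :=
  ⟨le_rfl, fun _ hg _ hn => D.mul_mem (D.mul_mem hg hn) (D.inv_mem hg), fun _ hg _ _ _ => hg⟩

lemma JJ_le (D : Subgroup G) {c : G} (hc : c ∈ D) : JJ D c ≤ D :=
  sInf_le ⟨relNI_self D, hc⟩

lemma mem_JJ (D : Subgroup G) (c : G) : c ∈ JJ D c := by
  unfold JJ
  rw [mem_sInf]
  rintro N ⟨_, h⟩
  exact h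

lemma JJ_le_of (D N : Subgroup G) {c : G} (hN : RelNI D N) (hc : c ∈ N) : JJ D c ≤ N :=
  sInf_le ⟨hN, hc⟩

lemma relNI_JJ (D : Subgroup G) {c : G} (hc : c ∈ D) : RelNI D (JJ D c) := by
  refine ⟨JJ_le D hc, ?_, ?_⟩
  · intro g hg n hn
    unfold JJ at hn ⊢
    rw [mem_sInf] at hn ⊢
    rintro N ⟨hN, hcN⟩
    exact hN.conj g hg n (hn N ⟨hN, hcN⟩)
  · intro g hg k hk hgk
    unfold JJ at hgk ⊢
    rw [mem_sInf] at hgk ⊢
    rintro N ⟨hN, hcN⟩
    exact hN.isol g hg k hk (hgk N ⟨hN, hcN⟩)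

lemma JJ_mono {D D' : Subgroup G} (h : D ≤ D') {c : G} (hc : c ∈ D) : JJ D c ≤ JJ D' c := by
  have h1 := relNI_JJ D' (h hc)
  have h2 : RelNI D (JJ D' c ⊓ D) := by
    refine ⟨inf_le_right, ?_, ?_⟩
    · rintro g hg n ⟨hn, hnD⟩
      exact ⟨h1.conj g (h hg) n hn, D.mul_mem (D.mul_mem hg hnD) (D.inv_mem hg)⟩
    · rintro g hg k hk ⟨hgk, _⟩
      exact ⟨h1.isol g (h hg) k hk hgk, hg⟩
  exact (JJ_le_of D _ h2 ⟨mem_JJ D' c, hc⟩).trans inf_le_left

/-- In a torsion-free nilpotent `D`, the commutator `c = ⁅a, b⁆ ≠ 1` does not capture `a`. -/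
lemma not_mem_JJ (hPS : PSBox) (hL : LocNilp G) (hT : TorsionFree G) (D : Subgroup G)
    (hD : Group.IsNilpotent D) {a b : G} (hb : b ∈ D) (ha : a ∈ D) (hab : ⁅a, b⁆ ≠ 1) :
    a ∉ JJ D ⁅a, b⁆ := by
  classical
  intro haJ
  set c := ⁅a, b⁆ with hc
  have hcD : c ∈ D := by
    rw [hc, commutatorElement_def]
    exact D.mul_mem (D.mul_mem (D.mul_mem ha hb) (D.inv_mem ha)) (D.inv_mem hb)
  set U : ℕ → Subgroup G := fun j => (Subgroup.upperCentralSeries D j).map D.subtype with hU
  have hUrel : ∀ j, RelNI D (U j) := by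
    intro j
    have hiso := isolated_ucs hPS D (locNilp_of_injective D.subtype D.subtype_injective hL)
      (torsionFree_of_injective D.subtype D.subtype_injective hT) j
    refine ⟨?_, ?_, ?_⟩
    · rintro x ⟨y, _, rfl⟩
      exact y.2
    · rintro g hg n ⟨y, hy, rfl⟩
      refine ⟨⟨g, hg⟩ * y * ⟨g, hg⟩⁻¹, ?_, rfl⟩
      exact Normal.conj_mem inferInstance y hy _
    · rintro g hg k hk ⟨y, hy, hyg⟩
      refine ⟨⟨g, hg⟩, ?_, rfl⟩
      apply hiso ⟨g, hg⟩ k hk
      have : (⟨g, hg⟩ : D) ^ k = y := by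
        apply Subtype.ext
        rw [← show D.subtype y = (y : G) from rfl, hyg]
        rfl
      rw [this]
      exact hy
  obtain ⟨n, hn⟩ := hD.nilpotent'
  have hex : ∃ j, JJ D c ≤ U j := by
    refine ⟨n, ?_⟩
    intro x hx
    refine ⟨⟨x, JJ_le D hcD hx⟩, ?_, rfl⟩
    rw [hn]; trivial
  have hmin := Nat.find_spec hex
  set i := Nat.find hex with hi
  rcases Nat.eq_zero_or_pos i with h0 | hpos
  · rw [h0] at hmin
    have h1 := hmin (mem_JJ D c)
    obtain ⟨y, hy, hyc⟩ := h1
    rw [Subgroup.upperCentralSeries_zero] at hy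
    have hy' : y = 1 := by simpa using hy
    rw [hy', map_one] at hyc
    exact hab hyc.symm
  · obtain ⟨i', hi'⟩ : ∃ i', i = i' + 1 := ⟨i - 1, by omega⟩
    have h1 := hmin haJ
    obtain ⟨y, hy, hya⟩ := h1
    rw [hi'] at hy
    have h2 := Subgroup.mem_upperCentralSeries_succ_iff.mp hy ⟨b, hb⟩
    have h3 : c ∈ U i' := by
      refine ⟨⁅y, ⟨b, hb⟩⁆, h2, ?_⟩
      rw [map_commutatorElement, hya, hc]
      rfl
    have h4 : JJ D c ≤ U i' := JJ_le_of D _ (hUrel i') h3
    exact Nat.find_min hex (by omega : i' < Nat.find hex) h4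

/-- The discrete case. -/
theorem discrete_case (hPS : PSBox) (hL : LocNilp G) (hT : TorsionFree G) (a b : G)
    (hab : ¬ Commute a b) :
    ∃ N : Subgroup G, N.Normal ∧ Isolated N ∧ N ≠ ⊥ ∧ N ≠ ⊤ := by
  classical
  set c := ⁅a, b⁆ with hc
  have hc1 : c ≠ 1 := by
    rw [hc, Ne, commutatorElement_eq_one_iff_commute]; exact hab
  let N : Subgroup G :=
    { carrier := {x | ∃ s : Finset G, c ∈ closure (s : Set G) ∧ x ∈ JJ (closure (s : Set G)) c}
      one_mem' := ⟨{c}, subset_closure (by simp), one_mem _⟩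
      mul_mem' := by
        rintro x y ⟨s, hs, hx⟩ ⟨t, ht, hy⟩
        have h1 : closure (s : Set G) ≤ closure ((s ∪ t : Finset G) : Set G) :=
          closure_mono (by simp)
        have h2 : closure (t : Set G) ≤ closure ((s ∪ t : Finset G) : Set G) :=
          closure_mono (by simp)
        exact ⟨s ∪ t, h1 hs, mul_mem (JJ_mono h1 hs hx) (JJ_mono h2 ht hy)⟩
      inv_mem' := by
        rintro x ⟨s, hs, hx⟩
        exact ⟨s, hs, inv_mem hx⟩ }
  refine ⟨N, ⟨?_⟩, ?_, ?_, ?_⟩
  · rintro x ⟨s, hs, hx⟩ g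
    have h1 : closure (s : Set G) ≤ closure ((insert g s : Finset G) : Set G) :=
      closure_mono (by simp)
    have hg : g ∈ closure ((insert g s : Finset G) : Set G) := subset_closure (by simp)
    exact ⟨insert g s, h1 hs, (relNI_JJ _ (h1 hs)).conj g hg x (JJ_mono h1 hs hx)⟩
  · rintro g k hk ⟨s, hs, hx⟩
    have h1 : closure (s : Set G) ≤ closure ((insert g s : Finset G) : Set G) :=
      closure_mono (by simp)
    have hg : g ∈ closure ((insert g s : Finset G) : Set G) := subset_closure (by simp)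
    exact ⟨insert g s, h1 hs, (relNI_JJ _ (h1 hs)).isol g hg k hk (JJ_mono h1 hs hx)⟩
  · intro h
    have : c ∈ N := ⟨{c}, subset_closure (by simp), mem_JJ _ _⟩
    rw [h, mem_bot] at this
    exact hc1 this
  · intro h
    have : a ∈ N := by rw [h]; trivial
    obtain ⟨s, hs, hx⟩ := this
    have h1 : closure (s : Set G) ≤ closure ((insert a (insert b s) : Finset G) : Set G) :=
      closure_mono (by simp [Set.subset_def]; tauto)
    exact not_mem_JJ hPS hL hT _ (hL _) (subset_closure (by simp)) (subset_closure (by simp))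
      hc1 (JJ_mono h1 hs hx)

end Pool.Agent.Helper37.ILN
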