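import Mathlib
import Pool.Agent.Helper37.ILN.Discrete
import Pool.Agent.Helper37.ILN.Born

/-!
Topological part, case without nontrivial compact elements.
-/

set_option autoImplicit false

open scoped commutatorElement Pointwise Topology
open Set

namespace Pool.Agent.Helper37.ILN

open Pool.Agent.Helper87.ILN

variable {G : Type} [Group G] [TopologicalSpace G]

/-- compact elements -/
def CompEl (x : G) : Prop := ∃ K : Set G, IsCompact K ∧ ∀ n : ℤ, x ^ n ∈ K

/-- The negation of the conclusion. -/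
def NoProper (G : Type) [Group G] [TopologicalSpace G] : Prop :=
  ∀ H : Subgroup G, H.Normal → IsClosed (H : Set G) → Isolated H → H = ⊥ ∨ H = ⊤

variable [IsTopologicalGroup G] [T2Space G]

lemma isClosed_centralizer' (S : Set G) : IsClosed (Subgroup.centralizer S : Set G) :=
  Set.isClosed_centralizer S

/-- Primeness of a counterexample. -/
lemma prime_of_noProper (hPS : PSProp G) (hno : NoProper G) (hab : ∃ a b : G, a * b ≠ b * a)
    (x y : G) (hx : x ≠ 1) (hy : y ≠ 1) : ∃ g : G, ¬ Commute x (g * y * g⁻¹) := by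
  by_contra hcon
  push Not at hcon
  set S : Set G := {z | ∃ g : G, z = g * y * g⁻¹} with hS
  have hSconj : ∀ g : G, ∀ s ∈ S, g * s * g⁻¹ ∈ S := by
    rintro g s ⟨h, rfl⟩
    exact ⟨g * h, by group⟩
  have h1 := hno (Subgroup.centralizer S) (centralizer_normal_of_conj S hSconj)
    (isClosed_centralizer' S) (isolated_centralizer hPS S)
  have hxS : x ∈ Subgroup.centralizer S := by
    rw [Subgroup.mem_centralizer_iff]
    rintro z ⟨g, rfl⟩
    exact (hcon g).eq.symm
  have htop : Subgroup.centralizer S = ⊤ := by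
    rcases h1 with h | h
    · rw [h, Subgroup.mem_bot] at hxS
      exact absurd hxS hx
    · exact h
  have hyc : y ∈ Subgroup.centralizer (Set.univ : Set G) := by
    rw [Subgroup.mem_centralizer_iff]
    intro z _
    have hz : z ∈ Subgroup.centralizer S := by rw [htop]; trivial
    rw [Subgroup.mem_centralizer_iff] at hz
    exact (hz y ⟨1, by simp⟩).symm
  have h2 := hno (Subgroup.centralizer (Set.univ : Set G))
    (centralizer_normal_of_conj _ (fun _ _ _ => trivial))
    (isClosed_centralizer' _) (isolated_centralizer hPS _)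
  have htop2 : Subgroup.centralizer (Set.univ : Set G) = ⊤ := by
    rcases h2 with h | h
    · rw [h, Subgroup.mem_bot] at hyc
      exact absurd hyc hy
    · exact h
  obtain ⟨a, b, hab⟩ := hab
  have ha : a ∈ Subgroup.centralizer (Set.univ : Set G) := by rw [htop2]; trivial
  rw [Subgroup.mem_centralizer_iff] at ha
  exact hab (ha b trivial).symm

/-- A closed-open compactly generated subgroup is nilpotent. -/
lemma exists_open_nilpotent [LocallyCompactSpace G] (hL : LocNilp G)
    (hno : ∀ x : G, CompEl x → x = 1) :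
    ∃ H : Subgroup G, IsOpen (H : Set G) ∧ Group.IsNilpotent H := by
  classical
  obtain ⟨K, hK, hK1⟩ := exists_compact_mem_nhds (1 : G)
  set V := K ∩ K⁻¹ with hV
  have hVc : IsCompact V := hK.inter_right hK.inv.isClosed
  have hV1 : V ∈ 𝓝 (1 : G) := by
    apply Filter.inter_mem hK1
    have := continuous_inv.continuousAt (x := (1 : G))
    have h2 := this.preimage_mem_nhds (by rw [inv_one]; exact hK1)
    exact h2
  have hVinv : ∀ v ∈ V, v⁻¹ ∈ V := by
    rintro v ⟨h1, h2⟩
    exact ⟨h2, by simpa using h1⟩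
  have h1V : (1 : G) ∈ V := mem_of_mem_nhds hV1
  -- finite cover
  have hcov : V * V ⊆ ⋃ y ∈ (V * V : Set G), (fun z => z * y⁻¹) ⁻¹' (interior V) := by
    intro y hy
    refine mem_iUnion₂.mpr ⟨y, hy, ?_⟩
    change y * y⁻¹ ∈ interior V
    rw [mul_inv_cancel]
    exact mem_interior_iff_mem_nhds.mpr hV1
  obtain ⟨F, hFsub, hFfin, hF⟩ := (hVc.mul hVc).elim_finite_subcover_image
    (fun y _ => isOpen_interior.preimage (continuous_mul_const y⁻¹)) hcov
  set H := Subgroup.closure V with hH
  set N₁ := Subgroup.closure F with hN₁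
  have hVH : V ⊆ H := Subgroup.subset_closure
  have hFH : N₁ ≤ H := by
    rw [hN₁, Subgroup.closure_le]
    intro f hf
    obtain ⟨u, hu, v, hv, rfl⟩ := hFsub hf
    exact H.mul_mem (hVH hu) (hVH hv)
  -- H = V N₁
  have hHVN : ∀ h ∈ H, ∃ v ∈ V, ∃ n ∈ N₁, h = v * n := by
    intro h hh
    have key : ∀ u ∈ V, ∀ y, (∃ v ∈ V, ∃ n ∈ N₁, y = v * n) → ∃ v ∈ V, ∃ n ∈ N₁, u * y = v * n := by
      rintro u hu y ⟨v, hv, n, hn, rfl⟩
      have h1 := hF (Set.mul_mem_mul hu hv)
      obtain ⟨f, hf, hfm⟩ := mem_iUnion₂.mp h1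
      refine ⟨u * v * f⁻¹, interior_subset hfm, f * n,
        N₁.mul_mem (Subgroup.subset_closure hf) hn, by group⟩
    refine Subgroup.closure_induction_left (p := fun x _ => ∃ v ∈ V, ∃ n ∈ N₁, x = v * n)
      ⟨1, h1V, 1, one_mem _, by simp⟩ ?_ ?_ hh
    · intro u hu y _ hy
      exact key u hu y hy
    · intro u hu y _ hy
      exact key u⁻¹ (hVinv u hu) y hy
  refine ⟨H, Subgroup.isOpen_of_mem_nhds H (g := 1) (Filter.mem_of_superset hV1 hVH), ?_⟩
  -- nilpotency of N₁
  have hN₁nil : Group.IsNilpotent N₁ := by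
    have := hL hFfin.toFinset
    rwa [hFfin.coe_toFinset] at this
  obtain ⟨c, hc⟩ := (Subgroup.isNilpotent_iff_lowerCentralSeries N₁).mp hN₁nil
  apply lemmaN c H (fun S => ∃ K : Set G, IsCompact K ∧ ∀ x ∈ S, (x : G) ∈ K) ?_
    (locNilp_of_injective H.subtype H.subtype_injective hL) ?_ (N₁.subgroupOf H) ?_
    {x | (x : G) ∈ V} ⟨V, hVc, fun x hx => hx⟩ ?_
  · refine ⟨?_, ?_, ?_, ?_⟩
    · rintro S T hST ⟨K, hK, h⟩
      exact ⟨K, hK, fun x hx => h x (hST hx)⟩
    · rintro S T ⟨K, hK, h⟩ ⟨K', hK', h'⟩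
      refine ⟨K * K', hK.mul hK', ?_⟩
      rintro x ⟨s, hs, t, ht, rfl⟩
      exact Set.mul_mem_mul (h s hs) (h' t ht)
    · rintro S ⟨K, hK, h⟩
      refine ⟨K⁻¹, hK.inv, ?_⟩
      intro x hx
      have := h _ hx
      simpa using this
    · intro x
      refine ⟨{(x : G)}, isCompact_singleton, ?_⟩
      rintro y rfl
      rfl
  · rintro h ⟨K, hK, hmem⟩
    apply Subtype.ext
    apply hno
    refine ⟨K, hK, fun n => ?_⟩
    have := hmem (h ^ n) ⟨n, rfl⟩
    simpa using this
  · apply (Subgroup.map_eq_bot_iff_of_injective _ H.subtype_injective).mp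
    rw [Subgroup.map_lowerCentralSeries, Subgroup.subgroupOf_map_subtype, eq_bot_iff, ← hc]
    exact Subgroup.lowerCentralSeries_mono c inf_le_left
  · intro q
    obtain ⟨v, hv, n, hn, hvn⟩ := hHVN q q.2
    refine ⟨⟨v, hVH hv⟩, hv, ⟨n, hFH hn⟩, hn, Subtype.ext hvn⟩

/-- Case without nontrivial compact elements. -/
theorem partBeta [LocallyCompactSpace G] (hPSB : PSBox) (hL : LocNilp G) (hT : TorsionFree G)
    (hab : ∃ a b : G, a * b ≠ b * a) (hNP : NoProper G)
    (hno : ∀ x : G, CompEl x → x = 1) : False := by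
  classical
  have hPS := hPSB G hL hT
  obtain ⟨H, hHo, hHn⟩ := exists_open_nilpotent hL hno
  by_cases hcc : connectedComponent (1 : G) = {1}
  · -- totally disconnected
    have htd : TotallyDisconnectedSpace G := totallyDisconnectedSpace_iff_connectedComponent_one.mpr hcc
    obtain ⟨K, hK, hK1⟩ := exists_compact_mem_nhds (1 : G)
    obtain ⟨W, hWclopen, h1W, hWK⟩ :=
      (loc_compact_Haus_tot_disc_of_zero_dim (H := G)).mem_nhds_iff.mp hK1
    have hWc : IsCompact W := hK.of_isClosed_subset hWclopen.1 hWK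
    obtain ⟨U, hU1, hUW⟩ := compact_open_separated_mul_left hWc hWclopen.2 subset_rfl
    let S : Subgroup G :=
      { carrier := {g | (∀ w ∈ W, g * w ∈ W) ∧ ∀ w ∈ W, g⁻¹ * w ∈ W}
        one_mem' := by constructor <;> intro w hw <;> simpa using hw
        mul_mem' := by
          rintro a b ⟨ha, ha'⟩ ⟨hb, hb'⟩
          refine ⟨fun w hw => by rw [mul_assoc]; exact ha _ (hb w hw), fun w hw => ?_⟩
          rw [mul_inv_rev, mul_assoc]
          exact hb' _ (ha' w hw)
        inv_mem' := by
          rintro a ⟨ha, ha'⟩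
          exact ⟨ha', by simpa using ha⟩ }
    have hSW : (S : Set G) ⊆ W := by
      rintro g ⟨hg, _⟩
      simpa using hg 1 h1W
    have hS1 : (S : Set G) ∈ 𝓝 (1 : G) := by
      have h2 : U⁻¹ ∈ 𝓝 (1 : G) := by
        have := continuous_inv.continuousAt (x := (1 : G))
        exact this.preimage_mem_nhds (by rw [inv_one]; exact hU1)
      apply Filter.mem_of_superset (Filter.inter_mem hU1 h2)
      rintro g ⟨hg, hg'⟩
      refine ⟨fun w hw => hUW (Set.mul_mem_mul hg hw), fun w hw => hUW (Set.mul_mem_mul ?_ hw)⟩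
      simpa using hg'
    have hSbot : (S : Set G) = {1} := by
      apply Set.eq_singleton_iff_unique_mem.mpr
      refine ⟨S.one_mem, ?_⟩
      intro g hg
      apply hno
      exact ⟨W, hWc, fun n => hSW (S.zpow_mem hg n)⟩
    have hdisc : DiscreteTopology G := by
      apply discreteTopology_of_isOpen_singleton_one
      rw [← hSbot]
      exact Subgroup.isOpen_of_mem_nhds S hS1
    obtain ⟨a, b, hab'⟩ := hab
    obtain ⟨N, hN1, hN2, hN3, hN4⟩ := discrete_case hPSB hL hT a b hab'
    rcases hNP N hN1 (isClosed_discrete _) hN2 with h | h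
    · exact hN3 h
    · exact hN4 h
  · -- nontrivial identity component
    set G₀ := Subgroup.connectedComponentOfOne G with hG₀
    have hG₀H : G₀ ≤ H := by
      have h1 : IsClopen (H : Set G) := ⟨H.isClosed_of_isOpen hHo, hHo⟩
      exact h1.connectedComponent_subset H.one_mem
    have hconj : ∀ g : G, ∀ x ∈ G₀, g * x * g⁻¹ ∈ G₀ := by
      intro g x hx
      have hcont : Continuous (fun y : G => g * y * g⁻¹) := by fun_prop
      have h1 := hcont.image_connectedComponent_subset (1 : G)
      have h2 : g * 1 * g⁻¹ = 1 := by group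
      rw [h2] at h1
      exact h1 ⟨x, hx, rfl⟩
    have hG₀n : Group.IsNilpotent G₀ :=
      Group.nilpotent_of_mulEquiv (Subgroup.subgroupOfEquivOfLe hG₀H)
    have hG₀nt : Nontrivial G₀ := by
      rw [Subgroup.nontrivial_iff_ne_bot]
      intro h
      apply hcc
      have : ((G₀ : Subgroup G) : Set G) = {1} := by rw [h]; rfl
      exact this
    have hcen := Group.IsNilpotent.center_ne_bot (G := G₀)
    obtain ⟨x, hx, hx1⟩ := (Subgroup.bot_or_exists_ne_one (Subgroup.center G₀)).resolve_left hcen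
    have hx1' : (x : G) ≠ 1 := fun h => hx1 (Subtype.ext h)
    obtain ⟨g, hg⟩ := prime_of_noProper hPS hNP hab x x hx1' hx1'
    apply hg
    have h1 := hconj g x x.2
    have h2 := (Subgroup.mem_center_iff.mp hx) ⟨_, h1⟩
    exact (congrArg Subtype.val h2).symm

end Pool.Agent.Helper37.ILN
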