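import Mathlib
import Pool.Agent.Helper37.ILN.Beta

/-!
Topological part, case with a nontrivial compact element.
-/

set_option autoImplicit false

open scoped commutatorElement Pointwise Topology
open Set

namespace Pool.Agent.Helper37.ILN

open Pool.Agent.Helper87.ILN

/-- The second black box. -/
def GTBox : Prop := ∀ (N : Type) [Group N] [Nontrivial N], LocNilp N → TorsionFree N →
  UnifLocNilp N → ∃ x : N, x ≠ 1 ∧ ∀ g : N, Commute x (g * x * g⁻¹)

section algebra

variable {G : Type*} [Group G]

lemma nestComm_mem (D : Subgroup G) (l : List G) (hl : ∀ x ∈ l, x ∈ D) (y : G) (hy : y ∈ D) :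
    nestComm l y ∈ Subgroup.lowerCentralSeries D l.length := by
  induction l with
  | nil => exact hy
  | cons g l ih =>
    have h1 := ih (fun x hx => hl x (List.mem_cons_of_mem _ hx))
    rw [List.length_cons, Subgroup.lowerCentralSeries_succ, Subgroup.commutator_comm]
    exact Subgroup.commutator_mem_commutator (hl g List.mem_cons_self) h1

lemma map_nestComm {H : Type*} [Group H] (f : G →* H) (l : List G) (y : G) :
    f (nestComm l y) = nestComm (l.map f) (f y) := by
  induction l with
  | nil => rfl
  | cons g l ih =>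
    simp only [nestComm, List.map_cons, map_commutatorElement, ih]

lemma exists_word_list {k : ℕ} (f : Fin k → G) (l : List G)
    (hl : ∀ x ∈ l, x ∈ Subgroup.closure (Set.range f)) :
    ∃ l' : List (FreeGroup (Fin k)), l'.length = l.length ∧ l'.map (FreeGroup.lift f) = l := by
  induction l with
  | nil => exact ⟨[], rfl, rfl⟩
  | cons g l ih =>
    obtain ⟨l', h1, h2⟩ := ih (fun x hx => hl x (List.mem_cons_of_mem _ hx))
    have hg := hl g List.mem_cons_self
    rw [← FreeGroup.range_lift_eq_closure] at hg
    obtain ⟨w, hw⟩ := hg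
    exact ⟨w :: l', by simp [h1], by simp [h2, hw]⟩

lemma pseq_word {k : ℕ} (P : Fin k → ℤ → G) (hP : ∀ j, P j ∈ PSeq G) (u : FreeGroup (Fin k)) :
    (fun s => FreeGroup.lift (fun j => P j s) u) ∈ PSeq G := by
  induction u using FreeGroup.induction_on with
  | C1 => simpa using PSeq.const (1 : G)
  | of j => simpa using hP j
  | inv_of j ih =>
    have := PSeq.inv ih
    simpa using this
  | mul x y hx hy =>
    have := PSeq.mul hx hy
    simpa using this

end algebra

section topology

variable {X : Type*} [Group X] [TopologicalSpace X] [IsTopologicalGroup X]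

/-- Recurrence of compact elements. -/
lemma recurrence (x : X) (K : Set X) (hK : IsCompact K) (hx : ∀ n : ℤ, x ^ n ∈ K) (W : Set X)
    (hW : W ∈ 𝓝 (1 : X)) : {s : ℤ | x ^ s ∈ W}.Infinite := by
  classical
  obtain ⟨V, hV1, hV⟩ := exists_nhds_split_inv hW
  -- cover K by the sets y V⁻¹
  have hcov : ∀ y ∈ K, ((fun z => z⁻¹ * y) ⁻¹' V) ∈ 𝓝 y := by
    intro y _
    have hc : Continuous (fun z : X => z⁻¹ * y) := by fun_prop
    exact hc.continuousAt.preimage_mem_nhds (by simpa using hV1)
  obtain ⟨t, htK, ht⟩ := hK.elim_nhds_subcover (fun y => (fun z => z⁻¹ * y) ⁻¹' V) hcov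
  have hmap : ∀ n : ℕ, ∃ y ∈ t, (x ^ (n : ℤ))⁻¹ * y ∈ V := by
    intro n
    obtain ⟨y, hy, hy'⟩ := mem_iUnion₂.mp (ht (hx n))
    exact ⟨y, hy, hy'⟩
  choose c hc1 hc2 using hmap
  obtain ⟨y, hy⟩ := Finite.exists_infinite_fiber (fun n : ℕ => (⟨c n, hc1 n⟩ : t))
  have hinf : {n : ℕ | c n = y}.Infinite := by
    have h1 := Set.infinite_coe_iff.mp hy
    refine h1.mono ?_
    intro n hn
    simp only [Set.mem_preimage, Set.mem_singleton_iff] at hn
    exact congrArg Subtype.val hn
  obtain ⟨n₀, hn₀⟩ := hinf.nonempty
  have hinj : Function.Injective (fun n : ℕ => (n₀ : ℤ) - n) := by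
    intro a b hab
    simp only at hab
    omega
  refine (hinf.image (f := fun n : ℕ => (n₀ : ℤ) - n) hinj.injOn).mono ?_
  rintro _ ⟨n, hn, rfl⟩
  have h1 := hV _ (hc2 n) _ (hc2 n₀)
  rw [show c n = y from hn, show c n₀ = y from hn₀] at h1
  have h2 : (x ^ (n : ℤ))⁻¹ * (y : X) / ((x ^ (n₀ : ℤ))⁻¹ * y) = x ^ ((n₀ : ℤ) - n) := by
    rw [div_eq_mul_inv, zpow_sub]
    have : Commute (x ^ (n : ℤ))⁻¹ (x ^ (n₀ : ℤ)) := by
      exact ((Commute.refl x).zpow_zpow _ _).inv_left
    calc (x ^ (n : ℤ))⁻¹ * (y : X) * ((x ^ (n₀ : ℤ))⁻¹ * y)⁻¹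
        = (x ^ (n : ℤ))⁻¹ * x ^ (n₀ : ℤ) := by group
      _ = x ^ (n₀ : ℤ) * (x ^ (n : ℤ))⁻¹ := this.eq
  change x ^ ((n₀ : ℤ) - n) ∈ W
  rw [← h2]
  exact h1

/-- The extension lemma: an open set invariant under a dense subgroup is everything. -/
lemma open_invariant_eq_univ (O : Set X) (hO : IsOpen O) (hne : O.Nonempty) (T : Subgroup X)
    (hT : Dense (T : Set X)) (hinv : ∀ f ∈ O, ∀ t ∈ T, f * t ∈ O) : O = Set.univ := by
  rw [Set.eq_univ_iff_forall]
  intro f
  obtain ⟨f₀, hf₀⟩ := hne
  have hopen : IsOpen ((fun t => f * t) ⁻¹' O) := hO.preimage (continuous_const_mul f)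
  obtain ⟨t, ht1, ht2⟩ := hT.inter_open_nonempty _ hopen ⟨f⁻¹ * f₀, by
    change f * (f⁻¹ * f₀) ∈ O
    rwa [mul_inv_cancel_left]⟩
  have := hinv _ ht1 t⁻¹ (T.inv_mem ht2)
  simpa using this

end topology

section unif

variable {N : Type} [Group N] [TopologicalSpace N] [IsTopologicalGroup N] [T2Space N]
  [LocallyCompactSpace N]

omit [T2Space N] [LocallyCompactSpace N] in
lemma continuous_word {k : ℕ} (u : FreeGroup (Fin k)) :
    Continuous (fun f : Fin k → N => FreeGroup.lift f u) := by
  induction u using FreeGroup.induction_on with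
  | C1 => simpa using continuous_const
  | of j => simpa using continuous_apply j
  | inv_of j ih =>
    simp only [map_inv]
    exact ih.inv
  | mul x y hx hy =>
    simp only [map_mul]
    exact hx.mul hy

/-- A locally compact torsion-free locally nilpotent group topologically generated by compact
elements is uniformly locally nilpotent. -/
theorem unifLocNilp_of_dense (hPS : PSProp N) (hL : LocNilp N)
    (hd : Dense ((Subgroup.closure {x : N | CompEl x} : Subgroup N) : Set N)) :
    UnifLocNilp N := by
  classical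
  intro k
  let A : ℕ → Set (Fin k → N) := fun c =>
    {f | ∀ l : List (FreeGroup (Fin k)), l.length = c → ∀ w, FreeGroup.lift f (nestComm l w) = 1}
  have hAclosed : ∀ c, IsClosed (A c) := by
    intro c
    have : A c = ⋂ (l : List (FreeGroup (Fin k))) (_ : l.length = c) (w : FreeGroup (Fin k)),
        {f : Fin k → N | FreeGroup.lift f (nestComm l w) = 1} := by
      ext f
      simp [A]
    rw [this]
    refine isClosed_iInter fun l => isClosed_iInter fun _ => isClosed_iInter fun w => ?_
    exact isClosed_eq (continuous_word _) continuous_const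
  have hAuniv : ⋃ c, A c = Set.univ := by
    rw [Set.eq_univ_iff_forall]
    intro f
    have hD := hL (Finset.univ.image f)
    rw [Finset.coe_image, Finset.coe_univ, Set.image_univ] at hD
    obtain ⟨c, hc⟩ := (Subgroup.isNilpotent_iff_lowerCentralSeries _).mp hD
    refine mem_iUnion.mpr ⟨c, ?_⟩
    intro l hl w
    rw [map_nestComm]
    have hw : ∀ w : FreeGroup (Fin k), FreeGroup.lift f w ∈ Subgroup.closure (Set.range f) := by
      intro w
      rw [← FreeGroup.range_lift_eq_closure]
      exact ⟨w, rfl⟩
    have h1 := nestComm_mem (Subgroup.closure (Set.range f)) (l.map (FreeGroup.lift f))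
      (by
        intro x hx
        obtain ⟨w', _, rfl⟩ := List.mem_map.mp hx
        exact hw w') (FreeGroup.lift f w) (hw w)
    rw [List.length_map, hl, hc, Subgroup.mem_bot] at h1
    exact h1
  obtain ⟨c, hcint⟩ := nonempty_interior_of_iUnion_of_closed hAclosed hAuniv
  have hall : ∀ (l : List (FreeGroup (Fin k))), l.length = c → ∀ w, ∀ f : Fin k → N,
      FreeGroup.lift f (nestComm l w) = 1 := by
    intro l hl w
    set u := nestComm l w with hu
    set E : Set (Fin k → N) := {f | FreeGroup.lift f u = 1} with hE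
    set O := interior E with hO
    have hOne : O.Nonempty := by
      obtain ⟨f, hf⟩ := hcint
      refine ⟨f, interior_mono ?_ hf⟩
      intro g hg
      exact hg l hl w
    -- invariance
    have hinv1 : ∀ (i : Fin k) (x : N), CompEl x → ∀ f ∈ O, f * Pi.mulSingle i x ∈ O := by
      intro i x hx
      obtain ⟨K, hK, hxK⟩ := hx
      have hsub : ∀ f ∈ O, f * Pi.mulSingle i x ∈ E := by
        intro f hf
        have hW : (fun w => f * w) ⁻¹' O ∈ 𝓝 (1 : Fin k → N) := by
          have hc : Continuous (fun w : Fin k → N => f * w) := continuous_const_mul f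
          exact hc.continuousAt.preimage_mem_nhds (by
            rw [mul_one]; exact isOpen_interior.mem_nhds hf)
        have hrec := recurrence (Pi.mulSingle i x : Fin k → N)
          ((MonoidHom.mulSingle (fun _ : Fin k => N) i) '' K) (hK.image (by
            exact continuous_mulSingle (A := fun _ : Fin k => N) i)) (by
            intro n
            refine ⟨x ^ n, hxK n, ?_⟩
            rw [map_zpow]; rfl) _ hW
        set P : Fin k → ℤ → N := fun j s => f j * ((Pi.mulSingle i x : Fin k → N) j) ^ s with hP
        have hPS' : ∀ j, P j ∈ PSeq N := fun j => PSeq.mul (PSeq.const (f j)) (PSeq.zpow _)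
        have hword := pseq_word P hPS' u
        have hvan := hPS _ hword (hrec.mono ?_) 1
        · have h1 : (fun j => P j 1) = f * Pi.mulSingle i x := by
            ext j; simp [hP]
          simp only [h1] at hvan
          exact hvan
        · intro s hs
          have h2 : f * (Pi.mulSingle i x : Fin k → N) ^ s ∈ E := interior_subset hs
          have h3 : (fun j => P j s) = f * (Pi.mulSingle i x : Fin k → N) ^ s := by
            ext j; simp [hP]
          change FreeGroup.lift (fun j => P j s) u = 1
          rw [h3]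
          exact h2
      intro f hf
      have hopen : IsOpen ((fun g => g * Pi.mulSingle i x) '' O) :=
        (Homeomorph.mulRight (Pi.mulSingle i x : Fin k → N)).isOpenMap O isOpen_interior
      apply interior_maximal _ hopen ⟨f, hf, rfl⟩
      rintro _ ⟨g, hg, rfl⟩
      exact hsub g hg
    -- the stabiliser
    let T : Subgroup (Fin k → N) :=
      { carrier := {t | ∀ f, f ∈ O ↔ f * t ∈ O}
        one_mem' := fun f => by rw [mul_one]
        mul_mem' := by
          intro a b ha hb f
          rw [← mul_assoc, ← hb, ← ha]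
        inv_mem' := by
          intro a ha f
          rw [ha (f * a⁻¹), inv_mul_cancel_right] }
    have hTs : ∀ (i : Fin k) (x : N), CompEl x → (Pi.mulSingle i x : Fin k → N) ∈ T := by
      intro i x hx f
      refine ⟨hinv1 i x hx f, fun h => ?_⟩
      have hx' : CompEl x⁻¹ := by
        obtain ⟨K, hK, hxK⟩ := hx
        exact ⟨K, hK, fun n => by rw [inv_zpow', ]; exact hxK _⟩
      have := hinv1 i x⁻¹ hx' _ h
      rw [mul_assoc, ← Pi.mulSingle_mul, mul_inv_cancel, Pi.mulSingle_one, mul_one] at this
      exact this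
    have hpi : Subgroup.pi Set.univ (fun _ : Fin k => Subgroup.closure {x : N | CompEl x}) ≤ T := by
      rw [Subgroup.pi_le_iff]
      intro i
      rw [Subgroup.map_le_iff_le_comap, Subgroup.closure_le]
      intro x hx
      exact hTs i x hx
    have hTd : Dense (T : Set (Fin k → N)) := by
      have h1 : Dense (Set.pi Set.univ
          (fun _ : Fin k => ((Subgroup.closure {x : N | CompEl x} : Subgroup N) : Set N))) :=
        dense_pi _ (fun _ _ => hd)
      exact h1.mono hpi
    have hOu := open_invariant_eq_univ O isOpen_interior hOne T hTd (fun f hf t ht => (ht f).mp hf)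
    intro f
    have hfO : f ∈ O := by rw [hOu]; trivial
    have hfE : f ∈ E := interior_subset hfO
    exact hfE
  refine ⟨c, ?_⟩
  intro f l hl hlmem y hy
  obtain ⟨l', hl', hmap⟩ := exists_word_list f l hlmem
  rw [← FreeGroup.range_lift_eq_closure] at hy
  obtain ⟨w, rfl⟩ := hy
  rw [← hmap, ← map_nestComm]
  exact hall l' (hl'.trans hl) w f

end unif

end Pool.Agent.Helper37.ILN
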