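import Mathlib
import Pool.Agent.Helper37.ILN.Alpha

/-!
The main theorem from the two black boxes.
-/

set_option autoImplicit false

open scoped commutatorElement Pointwise Topology
open Set

namespace Pool.Agent.Helper37.ILN

open Pool.Agent.Helper87.ILN

variable {G : Type} [Group G]

lemma closure_normal_of_conj (S : Set G) (hS : ∀ g : G, ∀ s ∈ S, g * s * g⁻¹ ∈ S) :
    (Subgroup.closure S).Normal := by
  constructor
  intro n hn g
  have h1 : Subgroup.closure S ≤ (Subgroup.closure S).comap (MulAut.conj g).toMonoidHom := by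
    rw [Subgroup.closure_le]
    intro s hs
    exact Subgroup.subset_closure (hS g s hs)
  exact h1 hn

/-- The Zorn argument. -/
lemma zorn_part [TopologicalSpace G] [IsTopologicalGroup G] [T2Space G] (hPS : PSProp G)
    (hNP : NoProper G) (G₁ : Subgroup G) (hG₁ : G₁.Normal) (hG₁b : G₁ ≠ ⊥) (x : G)
    (hx : ∀ g ∈ G₁, Commute x (g * x * g⁻¹)) : ∀ g : G, Commute x (g * x * g⁻¹) := by
  set F : Set (Subgroup G) := {M | M.Normal ∧ ∀ g ∈ M, Commute x (g * x * g⁻¹)} with hF
  obtain ⟨M, hG₁M, hMmax⟩ := zorn_le_nonempty₀ F (by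
    intro c hc hchain y hy
    have hdir : DirectedOn (· ≤ ·) c := hchain.directedOn
    refine ⟨sSup c, ⟨⟨?_⟩, ?_⟩, fun z hz => le_sSup hz⟩
    · intro n hn g
      rw [Subgroup.mem_sSup_of_directedOn ⟨y, hy⟩ hdir] at hn ⊢
      obtain ⟨s, hs, hns⟩ := hn
      exact ⟨s, hs, (hc hs).1.conj_mem n hns g⟩
    · intro g hg
      rw [Subgroup.mem_sSup_of_directedOn ⟨y, hy⟩ hdir] at hg
      obtain ⟨s, hs, hgs⟩ := hg
      exact (hc hs).2 g hgs) G₁ ⟨hG₁, hx⟩
  obtain ⟨⟨hMn, hMx⟩, hmax⟩ := hMmax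
  -- closed
  have hMclosed : IsClosed (M : Set G) := by
    have h1 : M.topologicalClosure ∈ F := by
      refine ⟨Subgroup.is_normal_topologicalClosure M, ?_⟩
      intro g hg
      have hcl : IsClosed {g : G | x * (g * x * g⁻¹) = (g * x * g⁻¹) * x} :=
        isClosed_eq (by fun_prop) (by fun_prop)
      exact hcl.closure_subset_iff.mpr (fun g hg => (hMx g hg).eq) hg
    have h2 := hmax h1 M.le_topologicalClosure
    have h3 : (M : Set G) = M.topologicalClosure :=
      Set.Subset.antisymm M.le_topologicalClosure h2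
    rw [h3]
    exact M.isClosed_topologicalClosure
  -- isolated
  have hMiso : Isolated M := by
    intro g m hm hg
    set Y : Set G := {y | y ^ m ∈ M} with hY
    have hYconj : ∀ g : G, ∀ s ∈ Y, g * s * g⁻¹ ∈ Y := by
      intro g s hs
      change (g * s * g⁻¹) ^ m ∈ M
      rw [conj_pow]
      exact hMn.conj_mem _ hs g
    have hinv : ∀ y ∈ Y, y⁻¹ ∈ Y := by
      intro y hy
      change y⁻¹ ^ m ∈ M
      rw [inv_pow]
      exact M.inv_mem hy
    have hkey : ∀ y ∈ Y, ∀ h : G, (∀ z ∈ M, Commute x ((z * h) * x * (z * h)⁻¹)) →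
        ∀ z ∈ M, Commute x ((z * (y * h)) * x * (z * (y * h))⁻¹) := by
      intro y hy h hh z hz
      have hseq : (fun s : ℤ => z * (y ^ s * h)) ∈ PSeq G :=
        PSeq.mul (PSeq.const z) (PSeq.mul (PSeq.zpow y) (PSeq.const h))
      have hseq2 := pseq_comm (PSeq.const x)
        (PSeq.mul (PSeq.mul hseq (PSeq.const x)) (PSeq.inv hseq))
      have h1 := ps_of_mul hPS hseq2 hm (fun t => ?_) 1
      · rw [comm_eq_one_iff, zpow_one] at h1
        exact h1
      · rw [comm_eq_one_iff]
        have h2 : y ^ ((m : ℤ) * t) ∈ M := by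
          rw [zpow_mul, zpow_natCast]
          exact M.zpow_mem hy t
        have h3 := hh (z * y ^ ((m : ℤ) * t)) (M.mul_mem hz h2)
        rw [mul_assoc z] at h3
        exact h3
    have hN : Subgroup.closure Y ∈ F := by
      refine ⟨closure_normal_of_conj Y hYconj, ?_⟩
      intro h hh
      have h1 : ∀ z ∈ M, Commute x ((z * h) * x * (z * h)⁻¹) := by
        refine Subgroup.closure_induction_left
          (p := fun h _ => ∀ z ∈ M, Commute x ((z * h) * x * (z * h)⁻¹)) ?_ ?_ ?_ hh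
        · intro z hz
          rw [mul_one]
          exact hMx z hz
        · intro y hy h _ ih
          exact hkey y hy h ih
        · intro y hy h _ ih
          exact hkey y⁻¹ (hinv y hy) h ih
      have h2 := h1 1 M.one_mem
      rwa [one_mul] at h2
    have hMY : M ≤ Subgroup.closure Y := fun y hy => Subgroup.subset_closure (M.pow_mem hy m)
    exact hmax hN hMY (Subgroup.subset_closure hg)
  have htop : M = ⊤ := by
    rcases hNP M hMn hMclosed hMiso with h | h
    · exfalso
      apply hG₁b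
      rw [eq_bot_iff, ← h]
      exact hG₁M
    · exact h
  intro g
  exact hMx g (by rw [htop]; trivial)

/-- Case with a nontrivial compact element. -/
theorem partAlpha [TopologicalSpace G] [IsTopologicalGroup G] [T2Space G] [LocallyCompactSpace G]
    (hPSB : PSBox) (hGT : GTBox) (hL : LocNilp G) (hT : TorsionFree G)
    (hab : ∃ a b : G, a * b ≠ b * a) (hNP : NoProper G)
    (x₀ : G) (hx₀ : CompEl x₀) (hx₀1 : x₀ ≠ 1) : False := by
  have hPS := hPSB G hL hT
  set C : Set G := {x | CompEl x} with hC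
  have hCconj : ∀ g : G, ∀ s ∈ C, g * s * g⁻¹ ∈ C := by
    rintro g s ⟨K, hK, hsK⟩
    refine ⟨(fun y => g * y * g⁻¹) '' K, hK.image (by fun_prop), fun n => ⟨s ^ n, hsK n, ?_⟩⟩
    rw [conj_zpow]
  set S₁ := Subgroup.closure C with hS₁
  have hS₁n : S₁.Normal := closure_normal_of_conj C hCconj
  set G₁ := S₁.topologicalClosure with hG₁
  have hG₁n : G₁.Normal := Subgroup.is_normal_topologicalClosure S₁
  have hG₁c : IsClosed (G₁ : Set G) := S₁.isClosed_topologicalClosure
  have hCG : C ⊆ G₁ := fun x hx => S₁.le_topologicalClosure (Subgroup.subset_closure hx)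
  have hG₁b : G₁ ≠ ⊥ := by
    intro h
    have := hCG hx₀
    rw [h] at this
    exact hx₀1 this
  have hemb : Topology.IsClosedEmbedding (Subtype.val : G₁ → G) := hG₁c.isClosedEmbedding_subtypeVal
  have hlc : LocallyCompactSpace G₁ := hemb.locallyCompactSpace
  have hLN : LocNilp G₁ := locNilp_of_injective G₁.subtype G₁.subtype_injective hL
  have hTN : TorsionFree G₁ := torsionFree_of_injective G₁.subtype G₁.subtype_injective hT
  have hcomp : ∀ x : G₁, CompEl (x : G) → CompEl x := by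
    rintro x ⟨K, hK, hxK⟩
    refine ⟨Subtype.val ⁻¹' K, hemb.isCompact_preimage hK, fun n => ?_⟩
    change ((x ^ n : G₁) : G) ∈ K
    simpa using hxK n
  have hd : Dense ((Subgroup.closure {x : G₁ | CompEl x} : Subgroup G₁) : Set G₁) := by
    have h1 : S₁ ≤ (Subgroup.closure {x : G₁ | CompEl x}).map G₁.subtype := by
      rw [hS₁, Subgroup.closure_le]
      intro x hx
      exact ⟨⟨x, hCG hx⟩, Subgroup.subset_closure (hcomp ⟨x, hCG hx⟩ hx), rfl⟩
    have h2 : (G₁ : Set G) ⊆ closure (Subtype.val ''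
        ((Subgroup.closure {x : G₁ | CompEl x} : Subgroup G₁) : Set G₁)) := by
      have h3 : (G₁ : Set G) = closure (S₁ : Set G) := Subgroup.topologicalClosure_coe
      rw [h3]
      exact closure_mono h1
    exact Subtype.dense_iff.mpr h2
  have hU : UnifLocNilp G₁ := unifLocNilp_of_dense (hPSB G₁ hLN hTN) hLN hd
  have hnt : Nontrivial G₁ := (Subgroup.nontrivial_iff_ne_bot G₁).mpr hG₁b
  obtain ⟨x, hx1, hx⟩ := hGT G₁ hLN hTN hU
  have hx1' : (x : G) ≠ 1 := fun h => hx1 (Subtype.ext h)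
  have hcomm : ∀ g ∈ G₁, Commute (x : G) (g * x * g⁻¹) := by
    intro g hg
    have := hx ⟨g, hg⟩
    exact congrArg Subtype.val this.eq
  have hall := zorn_part hPS hNP G₁ hG₁n hG₁b (x : G) hcomm
  obtain ⟨g, hg⟩ := prime_of_noProper hPS hNP hab (x : G) x hx1' hx1'
  exact hg (hall g)

end Pool.Agent.Helper37.ILN

open Pool.Agent.Helper87.ILN in
/-- The theorem from the two black boxes. -/
theorem Pool.Agent.Helper37.ILN.top
    (hPS : ∀ (G : Type) [Group G], LocNilp G → TorsionFree G → PSProp G)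
    (hGT : ∀ (N : Type) [Group N] [Nontrivial N], LocNilp N → TorsionFree N → UnifLocNilp N →
      ∃ x : N, x ≠ 1 ∧ ∀ g : N, Commute x (g * x * g⁻¹)) :
    ∀ (G : Type) [Group G] [TopologicalSpace G] [IsTopologicalGroup G]
      [LocallyCompactSpace G] [T2Space G],
      (∀ s : Finset G, Group.IsNilpotent (Subgroup.closure (s : Set G))) →
      (∃ a b : G, a * b ≠ b * a) →
      (∀ g : G, ∀ n : ℕ, 0 < n → g ^ n = 1 → g = 1) →
      ∃ H : Subgroup G, H.Normal ∧ IsClosed (H : Set G) ∧ H ≠ ⊥ ∧ H ≠ ⊤ ∧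
        ∀ g : G, ∀ n : ℕ, 0 < n → g ^ n ∈ H → g ∈ H := by
  intro G _ _ _ _ _ hL hab hT
  by_contra hcon
  have hNP : Pool.Agent.Helper37.ILN.NoProper G := by
    intro H h1 h2 h3
    by_contra h4
    push Not at h4
    exact hcon ⟨H, h1, h2, h4.1, h4.2, h3⟩
  by_cases hc : ∃ x : G, Pool.Agent.Helper37.ILN.CompEl x ∧ x ≠ 1
  · obtain ⟨x, hx, hx1⟩ := hc
    exact Pool.Agent.Helper37.ILN.partAlpha hPS hGT hL hT hab hNP x hx hx1
  · push Not at hc
    exact Pool.Agent.Helper37.ILN.partBeta hPS hL hT hab hNP hc
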